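import Pool.Agent.H30.AV.Targets2

/-!
# TRD: the two forms are part of a system of parameters
-/

set_option autoImplicit false

namespace Pool.Agent.H69.AV

open MvPolynomial SC Pool.Agent.H27.LV Pool.Agent.H30.AV Cardinal

section count

variable {k L Ω : Type} [Field k] [Field L] [Field Ω] [Algebra k L] [Algebra k Ω] [Algebra L Ω]
  [IsScalarTower k L Ω]

/-- quotients of elements of a subalgebra are algebraic over it -/
theorem isAlg_of_quot {E : Type} [Field E] [Algebra E Ω] (B : Subalgebra E Ω)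
    (h : ∀ w : Ω, ∃ x ∈ B, ∃ y ∈ B, y ≠ 0 ∧ y * w = x) : Algebra.IsAlgebraic B Ω := by
  refine ⟨fun w => ?_⟩
  obtain ⟨x, hx, y, hy, hy0, hxy⟩ := h w
  refine ⟨Polynomial.C (⟨y, hy⟩ : B) * Polynomial.X - Polynomial.C (⟨x, hx⟩ : B), ?_, ?_⟩
  · intro h0
    have h1 := congrArg (fun p => Polynomial.coeff p 1) h0
    simp only [Polynomial.coeff_sub, Polynomial.coeff_C_mul, Polynomial.coeff_X_one, mul_one,
      Polynomial.coeff_C_succ, sub_zero, Polynomial.coeff_zero] at h1
    exact hy0 (congrArg Subtype.val h1)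
  · rw [map_sub, map_mul, Polynomial.aeval_C, Polynomial.aeval_C, Polynomial.aeval_X]
    show y * w - x = 0
    rw [hxy, sub_self]

/-- the count of the transcendence degrees -/
theorem count {A : Type} [Fintype A] (α : A → L) (hα : AlgebraicIndependent k α)
    (F : IntermediateField k Ω) (lam : Ω) (a b c : ℕ) (hF : Algebra.trdeg k F ≤ (a : Cardinal))
    (hE : Algebra.trdeg F (IntermediateField.adjoin F (Set.range fun v => algebraMap L Ω (α v))) +
      (b : Cardinal) ≤ (Fintype.card A : Cardinal)) (hab : a + 1 ≤ b + c)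
    (halg : Algebra.IsAlgebraic (Algebra.adjoin
      (IntermediateField.adjoin F (Set.range fun v => algebraMap L Ω (α v))) {lam}) Ω) :
    Algebra.trdeg L Ω ≤ (c : Cardinal) := by
  set E := IntermediateField.adjoin F (Set.range fun v => algebraMap L Ω (α v)) with hEdef
  have h1 : Algebra.trdeg k L + Algebra.trdeg L Ω = Algebra.trdeg k Ω := trdeg_add_eq k L
  have h2 : Algebra.trdeg k F + Algebra.trdeg F Ω = Algebra.trdeg k Ω := trdeg_add_eq k F
  have h3 : Algebra.trdeg F E + Algebra.trdeg E Ω = Algebra.trdeg F Ω := trdeg_add_eq F E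
  have h4 : Algebra.trdeg E Ω ≤ 1 := by
    have := Algebra.IsAlgebraic.trdeg_le_cardinalMk E ({lam} : Set Ω)
    rwa [Cardinal.mk_singleton] at this
  have h5 : (Fintype.card A : Cardinal) ≤ Algebra.trdeg k L := by
    have := hα.cardinalMk_le_trdeg
    rwa [Cardinal.mk_fintype] at this
  -- everything is finite
  have hEfin : Algebra.trdeg F E < ℵ₀ :=
    lt_of_le_of_lt (self_le_add_right _ _ |>.trans hE) (Cardinal.natCast_lt_aleph0)
  obtain ⟨e, he⟩ := Cardinal.lt_aleph0.1 hEfin
  rw [he] at hE h3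
  have hE' : e + b ≤ Fintype.card A := by exact_mod_cast hE
  have h6 : Algebra.trdeg L Ω + (Fintype.card A : Cardinal) ≤
      (c : Cardinal) + (Fintype.card A : Cardinal) := by
    calc Algebra.trdeg L Ω + (Fintype.card A : Cardinal)
        ≤ Algebra.trdeg L Ω + Algebra.trdeg k L := by gcongr
      _ = Algebra.trdeg k L + Algebra.trdeg L Ω := add_comm _ _
      _ = Algebra.trdeg k F + Algebra.trdeg F Ω := by rw [h1, h2]
      _ = Algebra.trdeg k F + ((e : Cardinal) + Algebra.trdeg E Ω) := by rw [h3]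
      _ ≤ (a : Cardinal) + ((e : Cardinal) + 1) := by gcongr
      _ = ((a + (e + 1) : ℕ) : Cardinal) := by push_cast; rfl
      _ ≤ ((c + Fintype.card A : ℕ) : Cardinal) := by
          have : a + (e + 1) ≤ c + Fintype.card A := by omega
          exact_mod_cast this
      _ = _ := by push_cast; rfl
  exact (Cardinal.add_le_add_iff_of_lt_aleph0 Cardinal.natCast_lt_aleph0).1 h6

end count

section relations

variable {Ω : Type} [Field Ω] {n q : ℕ}

/-- the vector `ξ` in the block `i` -/
def ub (i : Fin q) (ξ : Fin (n + 1) → Ω) : Av q n → Ω :=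
  Sum.elim (fun p => if p.1 = i then ξ p.2 else 0) fun _ => 0

/-- the vector `η` in the last block -/
def ul (q : ℕ) (η : Fin n → Ω) : Av q n → Ω := Sum.elim (fun _ => 0) η

theorem sum_ub (i : Fin q) (ξ : Fin (n + 1) → Ω) (a : Av q n → Ω) :
    ∑ v, ub i ξ v * a v = ∑ s, ξ s * a (Sum.inl (i, s)) := by
  rw [Fintype.sum_sum_type]
  unfold ub
  simp only [Sum.elim_inl, Sum.elim_inr, zero_mul, Finset.sum_const_zero, add_zero]
  rw [Fintype.sum_prod_type, Finset.sum_eq_single i]
  · simp
  · intro i' _ hi'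
    simp [hi']
  · intro h
    exact absurd (Finset.mem_univ i) h

theorem sum_ul (η : Fin n → Ω) (a : Av q n → Ω) :
    ∑ v, ul q η v * a v = ∑ j, η j * a (Sum.inr j) := by
  rw [Fintype.sum_sum_type]
  unfold ul
  simp

end relations

theorem ev_T1 {k L Ω : Type} [Field k] [Field L] [Field Ω] [Algebra k L] [Algebra L Ω] {n q : ℕ}
    (α : Av q n → L) (i : Fin q) (ζ : Zv n → Ω) :
    aeval ζ (ev α (T1 k n q i)) = ∑ s : Fin (n + 1), ∑ j : Fin n,
      algebraMap L Ω (α (Sum.inl (i, s))) * algebraMap L Ω (α (Sum.inr j)) * ζ (s, j) := by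
  unfold ev T1
  rw [eval₂_sum, map_sum]
  refine Finset.sum_congr rfl fun s _ => ?_
  rw [eval₂_sum, map_sum]
  refine Finset.sum_congr rfl fun j _ => ?_
  rw [eval₂_mul, eval₂_mul, eval₂_X, eval₂_X, eval₂_C, map_X, map_mul, map_mul, aeval_C, aeval_C,
    aeval_X]

theorem ev_T2 {k L Ω : Type} [Field k] [Field L] [Field Ω] [Algebra k L] [Algebra L Ω] {n q : ℕ}
    (α : Av q n → L) (i : Fin q) (ζ : Zv n → Ω) :
    aeval ζ (ev α (T2 k n q i)) = ∑ j : Fin n,
      algebraMap L Ω (α (Sum.inl (i, j.succ))) * ζ (0, j) := by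
  unfold ev T2
  rw [eval₂_sum, map_sum]
  refine Finset.sum_congr rfl fun j _ => ?_
  rw [eval₂_mul, eval₂_X, eval₂_C, map_X, map_mul, aeval_C, aeval_X]

theorem trd_main (hLR1 : T_LR1) (hLR2 : T_LR2) (hSGR : T_SGR) {k L Ω : Type} [Field k] [Field L]
    [Field Ω] [Algebra k L] [Algebra k Ω] [Algebra L Ω] [IsScalarTower k L Ω] (n q β : ℕ)
    (P : Ideal (MvPolynomial (Zv n) k)) (hP : P.IsPrime) (hPh : IsHom P) (hPS : Seg P)
    (hPX : ∃ j : Fin n, X (0, j) ∉ P)
    (hPt : Algebra.trdeg k (MvPolynomial (Zv n) k ⧸ P) ≤ (β + 2 : ℕ)) (α : Av q n → L)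
    (hα : AlgebraicIndependent k α)
    (hgen : ∀ z : L, ∃ f g : MvPolynomial (Av q n) k, aeval α g ≠ 0 ∧
      z * aeval α g = aeval α f) (i : Fin q) (Q : Ideal (MvPolynomial (Zv n) L))
    (hPQ : ∀ g ∈ P, MvPolynomial.map (algebraMap k L) g ∈ Q) (hT1 : ev α (T1 k n q i) ∈ Q)
    (hT2 : ev α (T2 k n q i) ∈ Q) (ζ : Zv n → Ω) (hζQ : ∀ g ∈ Q, aeval ζ g = 0) (hζ0 : ζ ≠ 0)
    (hfrac : ∀ w : Ω, ∃ x y : MvPolynomial (Zv n) L, aeval ζ y ≠ 0 ∧ aeval ζ y * w = aeval ζ x) :
    Algebra.trdeg L Ω ≤ (β : Cardinal) := by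
  classical
  have hζP : ∀ g ∈ P, aeval ζ g = 0 := by
    intro g hg
    have h1 := hζQ _ (hPQ g hg)
    rwa [aeval_map_algebraMap] at h1
  obtain ⟨s0, j0, lam, ξ, η, hlam, hξ, hη, hζ, ht1, ht0⟩ :=
    hSGR k Ω n β P ζ hP hPh hPS hPX hPt hζP hζ0
  set F := IntermediateField.adjoin k (Set.range ξ ∪ Set.range η) with hF
  set a : Av q n → Ω := fun v => algebraMap L Ω (α v) with ha
  set E := IntermediateField.adjoin F (Set.range a) with hE
  have hξF : ∀ s, ξ s ∈ F := fun s =>
    IntermediateField.subset_adjoin _ _ (Or.inl ⟨s, rfl⟩)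
  have hηF : ∀ j, η j ∈ F := fun j =>
    IntermediateField.subset_adjoin _ _ (Or.inr ⟨j, rfl⟩)
  have haE : ∀ v, a v ∈ E := fun v => IntermediateField.subset_adjoin _ _ ⟨v, rfl⟩
  have hFE : ∀ x ∈ F, x ∈ E := fun x hx => IntermediateField.algebraMap_mem E (⟨x, hx⟩ : F)
  -- `L` is contained in `E`
  have hpoly : ∀ f : MvPolynomial (Av q n) k, aeval a f ∈ E := by
    intro f
    induction f using MvPolynomial.induction_on with
    | C c =>
      rw [aeval_C]
      exact hFE _ (IntermediateField.algebraMap_mem F c)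
    | add f g hf hg => rw [map_add]; exact add_mem hf hg
    | mul_X f v hf => rw [map_mul, aeval_X]; exact mul_mem hf (haE v)
  have hLE : ∀ z : L, algebraMap L Ω z ∈ E := by
    intro z
    obtain ⟨f, g, hg, hfg⟩ := hgen z
    have e : ∀ f : MvPolynomial (Av q n) k, algebraMap L Ω (aeval α f) = aeval a f :=
      fun f => (aeval_algebraMap_apply Ω α f).symm
    have h1 : algebraMap L Ω z * aeval a g = aeval a f := by
      rw [← e, ← e, ← map_mul, hfg]
    have h2 : aeval a g ≠ 0 := by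
      rw [← e]
      exact fun h => hg ((algebraMap L Ω).injective (h.trans (map_zero _).symm))
    have h3 : algebraMap L Ω z = aeval a f / aeval a g := by
      rw [eq_div_iff h2, h1]
    rw [h3]
    exact div_mem (hpoly f) (hpoly g)
  -- algebraic
  have hEB : ∀ x ∈ E, x ∈ Algebra.adjoin E {lam} := fun x hx =>
    Subalgebra.algebraMap_mem (Algebra.adjoin E {lam}) (⟨x, hx⟩ : E)
  have hlB : lam ∈ Algebra.adjoin E {lam} := Algebra.subset_adjoin rfl
  have hB : ∀ g : MvPolynomial (Zv n) L, aeval ζ g ∈ Algebra.adjoin E {lam} := by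
    intro g
    induction g using MvPolynomial.induction_on with
    | C c => rw [aeval_C]; exact hEB _ (hLE c)
    | add f g hf hg => rw [map_add]; exact add_mem hf hg
    | mul_X f v hf =>
      rw [map_mul, aeval_X]
      refine mul_mem hf ?_
      obtain ⟨s, j⟩ := v
      rw [hζ s j]
      exact mul_mem hlB (hEB _ (hFE _ (mul_mem (hξF s) (hηF j))))
  have halg : Algebra.IsAlgebraic (Algebra.adjoin E {lam}) Ω := by
    refine isAlg_of_quot _ fun w => ?_
    obtain ⟨x, y, hy, hxy⟩ := hfrac w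
    exact ⟨_, hB x, _, hB y, hy, hxy⟩
  -- the two relations
  have hR1 : (∑ s, ξ s * a (Sum.inl (i, s))) * (∑ j, η j * a (Sum.inr j)) = 0 := by
    have h1 := hζQ _ hT1
    rw [ev_T1] at h1
    have h2 : ∑ s : Fin (n + 1), ∑ j : Fin n,
        algebraMap L Ω (α (Sum.inl (i, s))) * algebraMap L Ω (α (Sum.inr j)) * ζ (s, j) =
        lam * ((∑ s, ξ s * a (Sum.inl (i, s))) * (∑ j, η j * a (Sum.inr j))) := by
      rw [Finset.sum_mul_sum, Finset.mul_sum]
      refine Finset.sum_congr rfl fun s _ => ?_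
      rw [Finset.mul_sum]
      refine Finset.sum_congr rfl fun j _ => ?_
      rw [hζ s j]
      simp only [ha]
      ring
    rw [h2] at h1
    exact (mul_eq_zero.1 h1).resolve_left hlam
  have hR2 : ξ 0 * ∑ j : Fin n, η j * a (Sum.inl (i, j.succ)) = 0 := by
    have h1 := hζQ _ hT2
    rw [ev_T2] at h1
    have h2 : ∑ j : Fin n, algebraMap L Ω (α (Sum.inl (i, j.succ))) * ζ (0, j) =
        lam * (ξ 0 * ∑ j : Fin n, η j * a (Sum.inl (i, j.succ))) := by
      rw [Finset.mul_sum, Finset.mul_sum]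
      refine Finset.sum_congr rfl fun j _ => ?_
      rw [hζ 0 j]
      simp only [ha]
      ring
    rw [h2] at h1
    exact (mul_eq_zero.1 h1).resolve_left hlam
  -- the first relation as a vector
  have hu1 : ∃ u : Av q n → Ω, (∀ v, u v ∈ F) ∧ ∑ v, u v * a v = 0 ∧
      (u = ub i ξ ∨ u = ul q η) := by
    rcases mul_eq_zero.1 hR1 with h | h
    · refine ⟨ub i ξ, ?_, ?_, Or.inl rfl⟩
      · rintro (⟨i', s⟩ | j)
        · show (if i' = i then ξ s else 0) ∈ F
          split_ifs
          · exact hξF s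
          · exact zero_mem _
        · exact zero_mem _
      · rw [sum_ub]
        exact h
    · refine ⟨ul q η, ?_, ?_, Or.inr rfl⟩
      · rintro (p | j)
        · exact zero_mem _
        · exact hηF j
      · rw [sum_ul]
        exact h
  obtain ⟨u, huF, hu0, hu⟩ := hu1
  by_cases hξ0 : ξ 0 = 0
  · have hne : u ≠ 0 := by
      rintro rfl
      rcases hu with hu | hu
      · have h1 := congrFun hu (Sum.inl (i, s0))
        simp [ub, hξ] at h1
      · have h1 := congrFun hu (Sum.inr j0)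
        simp [ul, hη] at h1
    have h1 := hLR1 k Ω (Av q n) a F u huF hne hu0
    refine count α hα F lam β 1 β (ht0 hξ0) ?_ (by omega) halg
    rw [Nat.cast_one]
    exact h1
  · have hR2' : ∑ j : Fin n, η j * a (Sum.inl (i, j.succ)) = 0 :=
      (mul_eq_zero.1 hR2).resolve_left hξ0
    set u' : Av q n → Ω := ub i (Fin.cons 0 η) with hu'
    have hu'F : ∀ v, u' v ∈ F := by
      rintro (⟨i', s⟩ | j)
      · show (if i' = i then (Fin.cons 0 η : Fin (n + 1) → Ω) s else 0) ∈ F
        split_ifs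
        · refine Fin.cases ?_ (fun j => ?_) s
          · exact zero_mem _
          · exact hηF j
        · exact zero_mem _
      · exact zero_mem _
    have hu'0 : ∑ v, u' v * a v = 0 := by
      rw [hu', sum_ub, Fin.sum_univ_succ]
      simp only [Fin.cons_zero, Fin.cons_succ, zero_mul, zero_add]
      exact hR2'
    have hlin : LinearIndependent Ω ![u, u'] := by
      rw [LinearIndependent.pair_iff]
      intro c c' hcc
      have hc : c = 0 := by
        rcases hu with hu | hu
        · have h1 := congrFun hcc (Sum.inl (i, 0))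
          rw [hu, hu'] at h1
          simp only [Pi.add_apply, Pi.smul_apply, ub, Sum.elim_inl, if_true, Fin.cons_zero,
            smul_eq_mul, mul_zero, add_zero, Pi.zero_apply] at h1
          exact (mul_eq_zero.1 h1).resolve_right hξ0
        · have h1 := congrFun hcc (Sum.inr j0)
          rw [hu, hu'] at h1
          simpa [ub, ul, hη] using h1
      refine ⟨hc, ?_⟩
      rw [hc, zero_smul, zero_add] at hcc
      have h1 := congrFun hcc (Sum.inl (i, j0.succ))
      rw [hu'] at h1
      simpa [ub, hη] using h1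
    have h1 := hLR2 k Ω (Av q n) a F u u' huF hu'F hlin hu0 hu'0
    refine count α hα F lam (β + 1) 2 β ht1 ?_ (by omega) halg
    exact_mod_cast h1

theorem pf_TRD (hLR1 : T_LR1) (hLR2 : T_LR2) (hSGR : T_SGR) : T_TRD := by
  classical
  intro k _ n q β P hP hPh hPS hPX hPt L _ _ α hα hgen i Q hQ hQh hPQ hT1 hT2
  haveI := hQ
  haveI : IsDomain (MvPolynomial (Zv n) L ⧸ Q) := Ideal.Quotient.isDomain Q
  set R := MvPolynomial (Zv n) L ⧸ Q with hR
  set Ω := FractionRing R with hΩ
  let j : R →ₐ[L] Ω := IsScalarTower.toAlgHom L R Ω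
  have hj : Function.Injective j := IsFractionRing.injective R Ω
  let ζ : Zv n → Ω := fun z => j (Ideal.Quotient.mk Q (X z))
  have hζ : ∀ g : MvPolynomial (Zv n) L, aeval ζ g = j (Ideal.Quotient.mk Q g) := by
    intro g
    have h1 : (aeval ζ : MvPolynomial (Zv n) L →ₐ[L] Ω) = j.comp (Ideal.Quotient.mkₐ L Q) := by
      apply MvPolynomial.algHom_ext
      intro z
      rw [aeval_X]
      rfl
    rw [h1]
    rfl
  by_cases hζ0 : ζ = 0
  · have h1 : Function.Surjective (Algebra.ofId L R) := by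
      intro r
      obtain ⟨g, rfl⟩ := Ideal.Quotient.mk_surjective r
      refine ⟨constantCoeff g, ?_⟩
      apply hj
      rw [← hζ g, hζ0]
      show j (algebraMap L R (constantCoeff g)) = _
      rw [AlgHom.commutes]
      simp [aeval_zero]
    have h2 : Algebra.trdeg L R ≤ Algebra.trdeg L L :=
      trdeg_le_of_surjective (Algebra.ofId L R) h1
    have h3 : Algebra.trdeg L L = 0 := trdeg_eq_zero
    rw [h3] at h2
    exact h2.trans (zero_le)
  · have h1 : Algebra.trdeg L R ≤ Algebra.trdeg L Ω := trdeg_le_of_injective j hj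
    refine h1.trans (trd_main hLR1 hLR2 hSGR n q β P hP hPh hPS hPX hPt α hα hgen i Q hPQ hT1 hT2
      ζ (fun g hg => ?_) hζ0 fun w => ?_)
    · rw [hζ, Ideal.Quotient.eq_zero_iff_mem.2 hg, map_zero]
    · obtain ⟨x, y, hy, hxy⟩ := IsFractionRing.div_surjective (A := R) w
      obtain ⟨x', rfl⟩ := Ideal.Quotient.mk_surjective x
      obtain ⟨y', rfl⟩ := Ideal.Quotient.mk_surjective y
      have hy0 : j (Ideal.Quotient.mk Q y') ≠ 0 := fun h =>
        nonZeroDivisors.ne_zero hy (hj (h.trans (map_zero _).symm))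
      refine ⟨x', y', ?_, ?_⟩
      · rw [hζ]
        exact hy0
      · rw [hζ, hζ, ← hxy]
        show j (Ideal.Quotient.mk Q y') * (j (Ideal.Quotient.mk Q x') /
          j (Ideal.Quotient.mk Q y')) = _
        rw [mul_div_cancel₀ _ hy0]

end Pool.Agent.H69.AV
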