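import Pool.Agent.H30.AV.Targets

/-!
# AVD: a linear form outside finitely many primes
-/

set_option autoImplicit false

namespace Pool.Agent.H69.AV

open MvPolynomial SC Pool.Agent.H27.LV Pool.Agent.H30.AV

/-- the linear form with given coefficients -/
noncomputable def linf (L τ : Type) [Field L] [Fintype τ] : (τ → L) →ₗ[L] MvPolynomial τ L :=
  Fintype.linearCombination L (fun x : τ => (X x : MvPolynomial τ L))

theorem linf_apply (L τ : Type) [Field L] [Fintype τ] (c : τ → L) :
    linf L τ c = ∑ x, C (c x) * X x := by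
  unfold linf
  rw [Fintype.linearCombination_apply]
  exact Finset.sum_congr rfl fun x _ => C_mul'.symm

theorem pf_AVD : T_AVD := by
  classical
  intro L τ _ _ _ s hs
  let W : Ideal (MvPolynomial τ L) → Submodule L (τ → L) := fun Q =>
    (Q.restrictScalars L).comap (linf L τ)
  have hW : ∀ Q ∈ s, W Q ≠ ⊤ := by
    intro Q hQ htop
    obtain ⟨x, hx⟩ := hs Q hQ
    apply hx
    have h1 : (Pi.single x 1 : τ → L) ∈ W Q := by
      rw [htop]
      trivial
    have h2 : linf L τ (Pi.single x 1) ∈ Q := h1
    rw [linf_apply, Finset.sum_eq_single x] at h2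
    · simpa using h2
    · intro y _ hy
      simp [Pi.single_apply, hy]
    · intro h
      exact absurd (Finset.mem_univ x) h
  have h := Subspace.biUnion_ne_univ_of_top_notMem (k := L) (E := τ → L) (s := s.image W) (by
    intro h1
    obtain ⟨Q, hQ, hQt⟩ := Finset.mem_image.1 h1
    exact hW Q hQ hQt)
  rw [Set.ne_univ_iff_exists_notMem] at h
  obtain ⟨c, hc⟩ := h
  refine ⟨c, fun Q hQ hmem => hc ?_⟩
  simp only [Set.mem_iUnion]
  refine ⟨W Q, Finset.mem_image_of_mem _ hQ, ?_⟩
  show linf L τ c ∈ Q
  rw [linf_apply]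
  exact hmem

end Pool.Agent.H69.AV
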