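import Pool.Agent.H30.AV.Targets

/-!
# FNT: all forms of some degree are in the ideal
-/

set_option autoImplicit false

namespace Pool.Agent.H69.AV

open MvPolynomial SC Pool.Agent.H27.LV Pool.Agent.H30.AV

theorem pf_FNT (hHMP : T_HMP) : T_FNT := by
  classical
  intro L τ _ _ A hA hQ
  haveI : Fintype τ := Fintype.ofFinite τ
  obtain ⟨s, hs1, -, hs3⟩ := hHMP L τ A hA
  have h1 : ∀ x : τ, ∃ m : ℕ, (X x : MvPolynomial τ L) ^ m ∈ A := by
    intro x
    refine hs3 _ fun Q hQs => ?_
    obtain ⟨h2, h3, h4⟩ := hs1 Q hQs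
    exact hQ Q h2 h3 h4 x
  choose m hm using h1
  refine ⟨∑ x, m x + 1, fun g hg => ?_⟩
  rw [g.as_sum]
  refine A.sum_mem fun d hd => ?_
  have hdeg : ∑ x, d x = ∑ x, m x + 1 := by
    have h2 := hg (mem_support_iff.1 hd)
    rw [Finsupp.weight_apply, Finsupp.sum_fintype] at h2
    · simpa using h2
    · intro i
      simp
  have hex : ∃ x, m x ≤ d x := by
    by_contra hcon
    push Not at hcon
    have h3 : ∑ x, d x ≤ ∑ x, m x := Finset.sum_le_sum fun x _ => (hcon x).le
    omega
  obtain ⟨x, hx⟩ := hex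
  have h4 : monomial d (coeff d g) =
      monomial (d - Finsupp.single x (m x)) (coeff d g) * (X x : MvPolynomial τ L) ^ m x := by
    rw [X_pow_eq_monomial, monomial_mul, mul_one, tsub_add_cancel_of_le]
    rw [Finsupp.single_le_iff]
    exact hx
  rw [h4]
  exact A.mul_mem_left _ (hm x)

end Pool.Agent.H69.AV
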